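import Mathlib
import Pool.Agent.Helper41_Ban.FinLo
import Pool.Agent.Helper23_TS.Nv
import Pool.Agent.Helper76_TS.Lc

/-!
# A local criterion for the difference of the two points at infinity
-/

open Polynomial NumberField IsDedekindDomain

namespace Pool.Agent.TS.Final.LocalCriterion

theorem result (g d p : ℕ) (hp : p.Prime) (K : Type) [Field K] [NumberField K]
    (hd : Module.finrank ℚ K ≤ d) (C : H12UBI.Curve g K) (v : HeightOneSpectrum (𝓞 K))
    (hv : ((p : ℕ) : 𝓞 K) ∈ v.asIdeal)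
    (hC : (∃ i, C.DomAt v i) ∨ ((∀ j, H12UBI.vabs v (C.h.coeff j) ≤ 1) ∧
      ∀ i, H12UBI.vabs v (C.r.coeff i) ^ (g + 1) ≤
        H12UBI.vabs v (Algebra.norm K (AdjoinRoot.mk C.h C.r)))) :
    orderOf C.infty ≤ 2 * (d * (2 * g + 2)) *
      ((g + 1) * p ^ (d * (2 * g + 2) * (3 * g + 1)) + g) +
      2 * d * (g + 1) * p ^ (d * (g + 1)) := by
  rcases hC with ⟨i, hi⟩ | ⟨h1, h2⟩
  · exact (H12UBI.final hp hd C hv i hi).trans (Nat.le_add_right _ _)
  · refine (Pool.Agent.TS.H76.lc (Pool.Agent.TS.nv H41Ban.lo) g d p hp K hd C v hv h1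
      (Or.inr h2)).trans (le_of_eq ?_)
    unfold H12UBI.bd Pool.Agent.TS.bl
    rw [← pow_mul, ← pow_mul]
    ring

end Pool.Agent.TS.Final.LocalCriterion
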