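import Mathlib
import Pool.Agent.Helper41_Ban.FinLo
import Pool.Agent.Helper23_TS.Nv
import Pool.Agent.Helper23_TS.Nb
import Pool.Agent.Helper23_TS.Gl
import Pool.Agent.Helper32_TS.Ex
import Pool.Agent.Helper32_TS.Rf

/-!
# Uniform boundedness for the two points at infinity, root field of `h` bounded, all `r`

Let `g + 1` be a prime number. For a number field `K` and bounds `D`, `Δ` there is `B` such that
for every extension `L/K` of degree `g + 1` with `|disc L| ≤ Δ`, every generator `θ` of `L/K`
(`h` the minimal polynomial of `θ` over `K`), every extension `K₁/K` of degree at most `D` and not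
divisible by `g + 1`, and **every** polynomial `r` over `K₁` of degree at most `g` with
`h² + 4 r` squarefree, the class of `∞₀ - ∞₁`, a `K₁`-rational point of the Jacobian (of
dimension `g`) of `y² + h(x) y = r(x)`, has infinite order or order at most `B`.
-/

open Polynomial NumberField

namespace Pool.Agent.TS.Final.RootFieldInfinity

theorem result (K : Type) [Field K] [NumberField K] (g D Δ : ℕ) (hg : (g + 1).Prime) :
    ∃ B : ℕ, ∀ (L : Type) [Field L] [NumberField L] [Algebra K L],
      Module.finrank K L = g + 1 → |NumberField.discr L| ≤ Δ →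
      ∀ θ : L, θ ∉ (algebraMap K L).range →
      ∀ (K₁ : Type) [Field K₁] [NumberField K₁] [Algebra K K₁],
        Module.finrank K K₁ ≤ D → ¬ (g + 1) ∣ Module.finrank K K₁ →
      ∀ C : H12UBI.Curve g K₁, C.h = (minpoly K θ).map (algebraMap K K₁) →
        orderOf C.infty ≤ B :=
  Pool.Agent.TS.H32.rf (Pool.Agent.TS.gl (Pool.Agent.TS.nb (Pool.Agent.TS.nv H41Ban.lo)))
    Pool.Agent.TS.H32.ex K g D Δ hg

end Pool.Agent.TS.Final.RootFieldInfinity
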